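import Pool.Agent.MP_c69980_ag.H71.SpecA

/-!
Regular functions with small fibres on an affine curve lie in a finite-dimensional space.
-/

set_option autoImplicit false

namespace Pool.Agent.MP_c69980_ag.H29

open Polynomial

section Deg

variable {B : Type} [CommRing B] [IsDomain B] [Algebra ℂ B] [Algebra ℂ[X] B]
  [IsScalarTower ℂ ℂ[X] B] [Module.Finite ℂ[X] B] [FaithfulSMul ℂ[X] B]

omit [IsDomain B] [FaithfulSMul ℂ[X] B] [Module.Finite ℂ[X] B] in
lemma chi_alg (χ : B →ₐ[ℂ] ℂ) (q : ℂ[X]) :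
    χ (algebraMap ℂ[X] B q) = q.eval (χ (algebraMap ℂ[X] B X)) := by
  induction q using Polynomial.induction_on' with
  | add p q hp hq => simp [hp, hq]
  | monomial n a =>
    rw [← C_mul_X_pow_eq_monomial, map_mul, map_pow, map_mul, map_pow, eval_mul, eval_pow, eval_C,
      eval_X]
    have : algebraMap ℂ[X] B (C a) = algebraMap ℂ B a := by
      rw [IsScalarTower.algebraMap_apply ℂ ℂ[X] B a, Polynomial.algebraMap_apply]; rfl
    rw [this, AlgHom.commutes]; rfl

omit [IsDomain B] [FaithfulSMul ℂ[X] B] [Module.Finite ℂ[X] B] in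
lemma chi_aeval (χ : B →ₐ[ℂ] ℂ) (u : B) (p : ℂ[X][X]) :
    χ (aeval u p) = (p.eval (C (χ u))).eval (χ (algebraMap ℂ[X] B X)) := by
  induction p using Polynomial.induction_on' with
  | add p q hp hq => simp [hp, hq]
  | monomial n a =>
    rw [← C_mul_X_pow_eq_monomial]
    simp [chi_alg χ a]

/-- every root of the minimal polynomial comes from a character -/
lemma exists_chi (u : B) (τ a : ℂ) (h : ((minpoly ℂ[X] u).eval (C a)).eval τ = 0) :
    ∃ χ : B →ₐ[ℂ] ℂ, χ (algebraMap ℂ[X] B X) = τ ∧ χ u = a := by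
  have hu : IsIntegral ℂ[X] u := Algebra.IsIntegral.isIntegral u
  let φ : ℂ[X][X] →+* ℂ := (evalRingHom τ).comp (evalRingHom (C a))
  have hφ : ∀ p, φ p = (p.eval (C a)).eval τ := fun p => rfl
  have hsurj : Function.Surjective φ := fun c => ⟨C (C c), by simp [hφ]⟩
  have hmax : (RingHom.ker φ).IsMaximal := RingHom.ker_isMaximal_of_surjective φ hsurj
  let alg : Algebra ℂ[X][X] B := (aeval u : ℂ[X][X] →ₐ[ℂ[X]] B).toRingHom.toAlgebra
  have halg : ∀ p : ℂ[X][X], algebraMap ℂ[X][X] B p = aeval u p := fun p => rfl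
  have : IsScalarTower ℂ[X] ℂ[X][X] B := IsScalarTower.of_algebraMap_eq (fun q => by
    rw [halg, Polynomial.algebraMap_apply, aeval_C]; rfl)
  have : Algebra.IsIntegral ℂ[X][X] B := Algebra.IsIntegral.tower_top ℂ[X]
  have hker : RingHom.ker (algebraMap ℂ[X][X] B) ≤ RingHom.ker φ := by
    intro p hp
    rw [RingHom.mem_ker, halg] at hp
    obtain ⟨q, rfl⟩ := minpoly.isIntegrallyClosed_dvd hu hp
    rw [RingHom.mem_ker, map_mul, hφ, h, zero_mul]
  obtain ⟨Q, hQ, hQc⟩ := Ideal.exists_ideal_over_maximal_of_isIntegral (RingHom.ker φ) hker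
  have : Algebra.FiniteType ℂ B := Algebra.FiniteType.trans (R := ℂ) (S := ℂ[X]) (A := B)
    inferInstance inferInstance
  let : Field (B ⧸ Q) := Ideal.Quotient.field Q
  have : Module.Finite ℂ (B ⧸ Q) := finite_of_finite_type_of_isJacobsonRing ℂ (B ⧸ Q)
  have hbij : Function.Bijective (algebraMap ℂ (B ⧸ Q)) :=
    IsAlgClosed.algebraMap_bijective_of_isIntegral
  let e : ℂ ≃ₐ[ℂ] (B ⧸ Q) := AlgEquiv.ofBijective (Algebra.ofId ℂ (B ⧸ Q)) hbij
  let χ : B →ₐ[ℂ] ℂ := (e.symm : (B ⧸ Q) →ₐ[ℂ] ℂ).comp (Ideal.Quotient.mkₐ ℂ Q)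
  have key : ∀ p : ℂ[X][X], φ p = 0 → χ (aeval u p) = 0 := by
    intro p hp
    have : p ∈ Q.comap (algebraMap ℂ[X][X] B) := by rw [hQc]; exact hp
    have h2 : Ideal.Quotient.mk Q (aeval u p) = 0 := Ideal.Quotient.eq_zero_iff_mem.2 this
    change e.symm (Ideal.Quotient.mk Q (aeval u p)) = 0
    rw [h2, map_zero]
  refine ⟨χ, ?_, ?_⟩
  · have := key (C (X - C τ)) (by simp [hφ])
    rw [chi_aeval] at this
    simpa [sub_eq_zero] using this
  · have := key (X - C (C a)) (by simp [hφ])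
    rw [chi_aeval] at this
    simpa [sub_eq_zero] using this

/-- coefficientwise derivative in the inner variable -/
noncomputable def dT (P : ℂ[X][X]) : ℂ[X][X] :=
  ∑ i ∈ Finset.range (P.natDegree + 1), monomial i (derivative (P.coeff i))

lemma coeff_dT (P : ℂ[X][X]) (i : ℕ) : (dT P).coeff i = derivative (P.coeff i) := by
  rw [dT, finsetSum_coeff]
  simp only [coeff_monomial]
  rw [Finset.sum_ite_eq' ]
  split_ifs with h
  · rfl
  · rw [coeff_eq_zero_of_natDegree_lt (by simpa using h), derivative_zero]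

lemma eval_dT (P : ℂ[X][X]) (a : ℂ) : (dT P).eval (C a) = derivative (P.eval (C a)) := by
  rw [dT, eval_finsetSum, eval_eq_sum_range, derivative_sum]
  refine Finset.sum_congr rfl fun i _ => ?_
  rw [eval_monomial, ← C_pow, derivative_mul, derivative_C, mul_zero, add_zero]

lemma coeff_eval_C (P : ℂ[X][X]) (a : ℂ) (j : ℕ) : (P.eval (C a)).coeff j =
    (∑ i ∈ Finset.range (P.natDegree + 1), monomial i ((P.coeff i).coeff j)).eval a := by
  rw [eval_finsetSum, eval_eq_sum_range, finsetSum_coeff]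
  refine Finset.sum_congr rfl fun i _ => ?_
  rw [eval_monomial, ← C_pow, coeff_mul_C]

lemma coeff_deg_of_infinite (P : ℂ[X][X]) (d : ℕ)
    (h : {a : ℂ | (P.eval (C a)).natDegree ≤ d}.Infinite) (i : ℕ) : (P.coeff i).natDegree ≤ d := by
  rw [natDegree_le_iff_coeff_eq_zero]
  intro j hj
  have hz : (∑ i ∈ Finset.range (P.natDegree + 1), monomial i ((P.coeff i).coeff j)) = 0 := by
    apply eq_zero_of_infinite_isRoot
    refine h.mono fun a ha => ?_
    rw [Set.mem_ofPred_eq, IsRoot.def, ← coeff_eval_C]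
    exact coeff_eq_zero_of_natDegree_lt (lt_of_le_of_lt ha hj)
  have := congrArg (fun q => q.coeff i) hz
  simp only [finsetSum_coeff, coeff_monomial, coeff_zero] at this
  rw [Finset.sum_ite_eq'] at this
  split_ifs at this with h'
  · exact this
  · rw [coeff_eq_zero_of_natDegree_lt (p := P) (by simpa using h'), coeff_zero]

/-- small fibres bound the degrees of the coefficients of the minimal polynomial -/
lemma minpoly_coeff_deg (u : B) (d : ℕ)
    (hf : ∀ a : ℂ, u ≠ algebraMap ℂ B a → {χ : B →ₐ[ℂ] ℂ | χ u = a}.encard ≤ d) (i : ℕ) :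
    ((minpoly ℂ[X] u).coeff i).natDegree ≤ d := by
  have hu : IsIntegral ℂ[X] u := Algebra.IsIntegral.isIntegral u
  set P := minpoly ℂ[X] u with hP
  have hPm : P.Monic := minpoly.monic hu
  by_cases h0 : dT P = 0
  · have : derivative (P.coeff i) = 0 := by rw [← coeff_dT, h0, coeff_zero]
    rw [derivative_eq_zero.1 this]
    exact Nat.zero_le _
  have hne : aeval u (dT P) ≠ 0 := by
    intro h
    have h1 := minpoly.IsIntegrallyClosed.degree_le_of_ne_zero h0 h
    have h2 : (dT P).degree < P.degree := by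
      rw [degree_eq_natDegree hPm.ne_zero, degree_lt_iff_coeff_zero]
      intro m hm
      rw [coeff_dT]
      rcases eq_or_lt_of_le hm with h3 | h3
      · rw [← h3, hPm.coeff_natDegree, derivative_one]
      · rw [coeff_eq_zero_of_natDegree_lt h3, derivative_zero]
    exact absurd h1 (not_le.2 h2)
  obtain ⟨c, D, hD, hc⟩ := Algebra.IsAlgebraic.exists_smul_eq_mul ℂ[X] (1 : B) hne
  apply coeff_deg_of_infinite
  have hfin1 : {a : ℂ | u = algebraMap ℂ B a}.Finite := by
    apply Set.Subsingleton.finite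
    intro a ha b hb
    exact (algebraMap ℂ B).injective (ha.symm.trans hb)
  have hfin2 : (⋃ τ ∈ {τ : ℂ | D.IsRoot τ}, {a : ℂ | (P.map (evalRingHom τ)).IsRoot a}).Finite := by
    refine Set.Finite.biUnion (finite_setOfPred_isRoot hD) fun τ _ => ?_
    exact finite_setOfPred_isRoot (hPm.map _).ne_zero
  refine ((hfin1.union hfin2).infinite_compl).mono fun a ha => ?_
  simp only [Set.mem_compl_iff, Set.mem_union, Set.mem_ofPred_eq, Set.mem_iUnion, not_or,
    not_exists] at ha
  obtain ⟨ha1, ha2⟩ := ha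
  set q := P.eval (C a) with hq
  have hsimple : ∀ τ, q.eval τ = 0 → (derivative q).eval τ ≠ 0 := by
    intro τ hτ hτ'
    obtain ⟨χ, h1, h2⟩ := exists_chi u τ a hτ
    have h3 : χ (aeval u (dT P)) = 0 := by rw [chi_aeval, h1, h2, eval_dT, hτ']
    have h4 : D.eval τ = 0 := by
      have := congrArg χ hc
      rw [map_mul, h3, zero_mul, ← Algebra.algebraMap_eq_smul_one, chi_alg, h1] at this
      exact this
    refine ha2 τ h4 ?_
    rw [IsRoot.def, eval_map, ← hτ, hq]
    have := hom_eval₂ P (RingHom.id _) (evalRingHom τ) (C a)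
    simpa [eval₂_id] using this.symm
  have hq0 : q ≠ 0 := fun h => hsimple 0 (by simp [h]) (by simp [h])
  have hsep : q.Separable := by
    rw [Separable, Polynomial.isCoprime_iff_aeval_ne_zero_of_isAlgClosed (k := ℂ) ℂ]
    intro τ
    by_cases h : q.eval τ = 0
    · right; simpa using hsimple τ h
    · left; simpa using h
  have hcard : q.roots.toFinset.card = q.natDegree := by
    rw [Multiset.toFinset_card_of_nodup (nodup_roots hsep)]
    exact (IsAlgClosed.splits q).natDegree_eq_card_roots.symm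
  have hsub : (q.roots.toFinset : Set ℂ) ⊆
      (fun χ : B →ₐ[ℂ] ℂ => χ (algebraMap ℂ[X] B X)) '' {χ : B →ₐ[ℂ] ℂ | χ u = a} := by
    intro τ hτ
    obtain ⟨χ, h1, h2⟩ := exists_chi u τ a (by simpa [hq0] using hτ)
    exact ⟨χ, h2, h1⟩
  have hle := ((Set.encard_le_encard hsub).trans (Set.encard_image_le _ _)).trans (hf a ha1)
  rw [Set.encard_coe_eq_coe_finsetCard, hcard] at hle
  exact_mod_cast hle

end Deg

section Trace

open WithZero

variable [DecidableEq (RatFunc ℂ)]

lemma v_poly_le (q : ℂ[X]) (N : ℕ) (h : q.natDegree ≤ N) :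
    RatFunc.inftyValuation ℂ (algebraMap ℂ[X] (RatFunc ℂ) q * (RatFunc.X⁻¹) ^ N) ≤ 1 := by
  by_cases hq : q = 0
  · simp [hq]
  rw [map_mul, map_pow, map_inv₀, RatFunc.inftyValuation.X, RatFunc.inftyValuation_apply,
    RatFunc.inftyValuation.polynomial ℂ hq, ← exp_neg, ← exp_nsmul, ← exp_add, ← exp_zero,
    exp_le_exp]
  simp only [smul_neg, nsmul_eq_mul, mul_one]
  omega

lemma deg_of_v_le (q : ℂ[X]) (N : ℕ)
    (h : RatFunc.inftyValuation ℂ (algebraMap ℂ[X] (RatFunc ℂ) q * (RatFunc.X⁻¹) ^ N) ≤ 1) :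
    q.natDegree ≤ N := by
  by_cases hq : q = 0
  · simp [hq]
  rw [map_mul, map_pow, map_inv₀, RatFunc.inftyValuation.X, RatFunc.inftyValuation_apply,
    RatFunc.inftyValuation.polynomial ℂ hq, ← exp_neg, ← exp_nsmul, ← exp_add, ← exp_zero,
    exp_le_exp] at h
  simp only [smul_neg, nsmul_eq_mul, mul_one] at h
  omega

variable {K : Type} [Field K] [Algebra (RatFunc ℂ) K] [Algebra ℂ[X] K]
  [IsScalarTower ℂ[X] (RatFunc ℂ) K]

lemma int_of_deg (z : K) (P : ℂ[X][X]) (hm : P.Monic) (hz : aeval z P = 0) (N : ℕ)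
    (hN : ∀ i, (P.coeff i).natDegree ≤ N) :
    IsIntegral (RatFunc.inftyValuation ℂ).integer
      (algebraMap (RatFunc ℂ) K ((RatFunc.X⁻¹) ^ N) * z) := by
  set s : RatFunc ℂ := (RatFunc.X⁻¹) ^ N with hs
  set P1 : (RatFunc ℂ)[X] := P.map (algebraMap ℂ[X] (RatFunc ℂ)) with hP1
  have hm1 : P1.Monic := hm.map _
  have hz1 : aeval z P1 = 0 := by rw [hP1, aeval_map_algebraMap, hz]
  have hz2 : aeval (algebraMap (RatFunc ℂ) K s * z) (P1.scaleRoots s) = 0 :=
    scaleRoots_aeval_eq_zero hz1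
  have hm2 : (P1.scaleRoots s).Monic := (monic_scaleRoots_iff s).2 hm1
  have hX : RatFunc.inftyValuation ℂ s ≤ 1 := by
    have := v_poly_le 1 N (by simp)
    rwa [map_one, one_mul] at this
  have hc : (↑(P1.scaleRoots s).coeffs : Set (RatFunc ℂ)) ⊆ (RatFunc.inftyValuation ℂ).integer := by
    intro y hy
    obtain ⟨i, -, rfl⟩ := mem_coeffs_iff.1 (Finset.mem_coe.1 hy)
    change RatFunc.inftyValuation ℂ _ ≤ 1
    rw [coeff_scaleRoots]
    rcases lt_trichotomy i P1.natDegree with h | h | h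
    · obtain ⟨k, hk⟩ : ∃ k, P1.natDegree - i = k + 1 := ⟨P1.natDegree - i - 1, by omega⟩
      rw [hk, pow_succ', ← mul_assoc, map_mul, map_pow, hP1, coeff_map]
      exact mul_le_one' (v_poly_le _ N (hN i)) (pow_le_one' hX _)
    · rw [h, hm1.coeff_natDegree]; simp
    · rw [coeff_eq_zero_of_natDegree_lt h]; simp
  refine ⟨(P1.scaleRoots s).toSubring _ hc, (monic_toSubring _ _ hc).2 hm2, ?_⟩
  have := map_toSubring (P1.scaleRoots s) _ hc
  rw [aeval_def, ← this, eval₂_map] at hz2
  exact hz2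

lemma trace_deg [FiniteDimensional (RatFunc ℂ) K] (z w : K) (N M : ℕ)
    (hz : IsIntegral ℂ[X] z) (hw : IsIntegral ℂ[X] w)
    (hz' : IsIntegral (RatFunc.inftyValuation ℂ).integer
      (algebraMap (RatFunc ℂ) K ((RatFunc.X⁻¹) ^ N) * z))
    (hw' : IsIntegral (RatFunc.inftyValuation ℂ).integer
      (algebraMap (RatFunc ℂ) K ((RatFunc.X⁻¹) ^ M) * w)) :
    ∃ q : ℂ[X], q.natDegree ≤ N + M ∧
      algebraMap ℂ[X] (RatFunc ℂ) q = Algebra.trace (RatFunc ℂ) K (z * w) := by
  obtain ⟨q, hq⟩ := IsIntegrallyClosed.isIntegral_iff.1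
    (Algebra.isIntegral_trace (L := RatFunc ℂ) (hz.mul hw))
  refine ⟨q, deg_of_v_le q _ ?_, hq⟩
  have h1 := Algebra.isIntegral_trace (L := RatFunc ℂ) (hz'.mul hw')
  have h2 : algebraMap (RatFunc ℂ) K ((RatFunc.X⁻¹) ^ N) * z *
      (algebraMap (RatFunc ℂ) K ((RatFunc.X⁻¹) ^ M) * w) =
      ((RatFunc.X⁻¹ : RatFunc ℂ) ^ (N + M)) • (z * w) := by
    rw [Algebra.smul_def, pow_add, map_mul]; ring
  rw [h2, map_smul, smul_eq_mul, mul_comm, ← hq] at h1
  exact (Valuation.integer.integers _).isIntegral_iff_v_le_one.1 h1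

end Trace

theorem core {B : Type} [CommRing B] [IsDomain B] [Algebra ℂ B] [Algebra ℂ[X] B]
    [IsScalarTower ℂ ℂ[X] B] [Module.Finite ℂ[X] B] [FaithfulSMul ℂ[X] B] (d : ℕ) :
    ∃ V : Submodule ℂ B, Module.Finite ℂ V ∧ ∀ u : B,
      (∀ i, ((minpoly ℂ[X] u).coeff i).natDegree ≤ d) → u ∈ V := by
  classical
  let K := FractionRing B
  let F := RatFunc ℂ
  have hinjB : Function.Injective (algebraMap B K) := IsFractionRing.injective B K
  have hinj : Function.Injective (algebraMap ℂ[X] K) := by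
    rw [IsScalarTower.algebraMap_eq ℂ[X] B K]
    exact hinjB.comp (FaithfulSMul.algebraMap_injective ℂ[X] B)
  let alg : Algebra F K := (IsFractionRing.lift (K := F) hinj).toAlgebra
  have tow : IsScalarTower ℂ[X] F K := IsScalarTower.of_algebraMap_eq fun q =>
    (IsFractionRing.lift_algebraMap (K := F) hinj q).symm
  have fin : FiniteDimensional F K := Module.Finite.of_isLocalization ℂ[X] B (nonZeroDivisors ℂ[X])
  obtain ⟨n, w, hw⟩ := Module.Finite.exists_fin (R := ℂ[X]) (M := B)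
  have hint : ∀ b : B, IsIntegral ℂ[X] (algebraMap B K b) := fun b =>
    (Algebra.IsIntegral.isIntegral (R := ℂ[X]) b).algebraMap
  have hO : ∀ (b : B) (N : ℕ), (∀ i, ((minpoly ℂ[X] b).coeff i).natDegree ≤ N) →
      IsIntegral (RatFunc.inftyValuation ℂ).integer
        (algebraMap F K ((RatFunc.X⁻¹) ^ N) * algebraMap B K b) := by
    intro b N hN
    refine int_of_deg _ (minpoly ℂ[X] b) (minpoly.monic (Algebra.IsIntegral.isIntegral b)) ?_ N hN
    rw [aeval_algebraMap_apply, minpoly.aeval, map_zero]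
  have hM : ∀ b : B, ∃ M : ℕ, ∀ i, ((minpoly ℂ[X] b).coeff i).natDegree ≤ M := by
    intro b
    refine ⟨(Finset.range ((minpoly ℂ[X] b).natDegree + 1)).sup
      fun i => ((minpoly ℂ[X] b).coeff i).natDegree, fun i => ?_⟩
    by_cases h : i < (minpoly ℂ[X] b).natDegree + 1
    · exact Finset.le_sup (f := fun i => ((minpoly ℂ[X] b).coeff i).natDegree)
        (Finset.mem_range.2 h)
    · rw [coeff_eq_zero_of_natDegree_lt (by omega)]; simp
  choose M hM using hM
  have hsm : ∀ (q : ℂ[X]) (b : B), Algebra.trace F K (algebraMap B K (q • b)) =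
      algebraMap ℂ[X] F q * Algebra.trace F K (algebraMap B K b) := by
    intro q b
    rw [← smul_eq_mul, ← map_smul, Algebra.smul_def, Algebra.smul_def, map_mul,
      ← IsScalarTower.algebraMap_apply, ← IsScalarTower.algebraMap_apply]
  let L : B →ₗ[ℂ] (Fin n → F) :=
    { toFun := fun u j => Algebra.trace F K (algebraMap B K (u * w j))
      map_add' := fun u v => by funext j; simp [add_mul]
      map_smul' := fun c u => by
        funext j
        simp only [RingHom.id_apply, Pi.smul_apply]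
        rw [smul_mul_assoc, ← algebraMap_smul ℂ[X] c, hsm, ← IsScalarTower.algebraMap_apply,
          Algebra.smul_def] }
  have hL : ∀ u j, L u j = Algebra.trace F K (algebraMap B K (u * w j)) := fun _ _ => rfl
  have hLinj : Function.Injective L := by
    rw [injective_iff_map_eq_zero]
    intro u hu
    by_contra hu0
    have hall : ∀ c : B, Algebra.trace F K (algebraMap B K (u * c)) = 0 := by
      intro c
      have hc : c ∈ Submodule.span ℂ[X] (Set.range w) := by rw [hw]; trivial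
      induction hc using Submodule.span_induction with
      | mem x hx => obtain ⟨j, rfl⟩ := hx; rw [← hL, hu]; rfl
      | zero => simp
      | add x y _ _ hx hy => rw [mul_add, map_add, map_add, hx, hy, add_zero]
      | smul q x _ hx => rw [mul_smul_comm, hsm, hx, mul_zero]
    obtain ⟨c, D, hD, hc⟩ := Algebra.IsAlgebraic.exists_smul_eq_mul ℂ[X] (1 : B) hu0
    have h1 := hall c
    rw [← hc, hsm, map_one, ← (algebraMap F K).map_one, Algebra.trace_algebraMap] at h1
    have h2 : algebraMap ℂ[X] F D ≠ 0 := by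
      rw [Ne, map_eq_zero_iff _ (IsFractionRing.injective ℂ[X] F)]; exact hD
    have h3 : Module.finrank F K ≠ 0 := Module.finrank_pos.ne'
    rcases mul_eq_zero.1 h1 with h | h
    · exact h2 h
    · rw [nsmul_eq_mul, mul_one] at h
      exact h3 (Nat.cast_eq_zero.1 h)
  let W : Fin n → Submodule ℂ F := fun j =>
    (degreeLT ℂ (d + M (w j) + 1)).map (IsScalarTower.toAlgHom ℂ ℂ[X] F).toLinearMap
  have hW : ∀ j, Module.Finite ℂ (W j) := fun j => Module.Finite.map _ _
  let S : Submodule ℂ (Fin n → F) := Submodule.pi Set.univ W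
  have hS : Module.Finite ℂ S :=
    Module.Finite.iff_fg.2 (Submodule.fg_pi fun j => Module.Finite.iff_fg.1 (hW j))
  refine ⟨S.comap L, ?_, fun u hu => ?_⟩
  · refine Module.Finite.of_injective (L.restrict (p := S.comap L) (q := S) fun _ h => h) ?_
    intro x y h
    exact Subtype.ext (hLinj (congrArg Subtype.val h))
  · intro j _
    obtain ⟨q, hq, hq'⟩ := trace_deg (K := K) _ _ d (M (w j)) (hint u) (hint (w j)) (hO u d hu)
      (hO _ _ (hM _))
    refine ⟨q, ?_, ?_⟩
    · change q ∈ degreeLT ℂ _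
      rw [mem_degreeLT]
      exact lt_of_le_of_lt degree_le_natDegree (by exact_mod_cast Nat.lt_succ_of_le hq)
    · change algebraMap ℂ[X] F q = L u j
      rw [hL, map_mul, hq']

theorem bound : H71.BoundStmt := by
  intro B _ _ t h d
  have := h.dom
  let alg : Algebra ℂ[X] B := (aeval t : ℂ[X] →ₐ[ℂ] B).toRingHom.toAlgebra
  have halg : ∀ p : ℂ[X], algebraMap ℂ[X] B p = aeval t p := fun p => rfl
  have tow : IsScalarTower ℂ ℂ[X] B := IsScalarTower.of_algebraMap_eq fun c => by
    rw [halg, AlgHom.commutes]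
  have fin : Module.Finite ℂ[X] B := h.fin
  have fai : FaithfulSMul ℂ[X] B := (faithfulSMul_iff_algebraMap_injective ℂ[X] B).2
    (transcendental_iff_injective.1 h.tr)
  obtain ⟨V, hV, hV'⟩ := core (B := B) d
  exact ⟨V, hV, fun u hu => hV' u (minpoly_coeff_deg u d hu)⟩

end Pool.Agent.MP_c69980_ag.H29
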